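import Pool.Agent.ANR.Stmts

/-! Tank ANR, row YHH: the threshold. -/

set_option autoImplicit false

open scoped BigOperators ComplexConjugate

noncomputable section

namespace Pool.Agent.ANR.H84

theorem yhh (lv2 : Lv2Stmt) (geq : GeqStmt) : YhhStmt := by
  intro X _ _ H H' κ κ' F y L hH hH' hO hy hL hLev
  obtain ⟨-, h2, -, -⟩ := lv2 X H H' κ κ' F y y L L hH hH' hO hy hy hL hL hLev hLev
  obtain ⟨-, -, h3, -, -⟩ := geq X H κ hH
  have hW := h3 y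
  have hS : ∑ z ∈ Fᶜ, κ z * ‖Gr H κ z y‖ ^ 2 ≤ (Gr H κ y y).im := by
    rw [← hW]
    refine Finset.sum_le_sum_of_subset_of_nonneg (Finset.subset_univ _) fun z _ _ => ?_
    exact mul_nonneg (hH.pos z).le (sq_nonneg _)
  have hI : 0 ≤ (Gr H κ y y).im := by
    rw [← hW]
    exact Finset.sum_nonneg fun z _ => mul_nonneg (hH.pos z).le (sq_nonneg _)
  -- Cauchy-Schwarz
  have hC : ∑ z ∈ Fᶜ, κ z * (‖Gr H κ z y - Gr H' κ' z y‖ * ‖Gr H κ z y‖)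
      ≤ 2 * Real.sqrt (L * (Gr H κ y y).im) := by
    have h4 := Finset.sum_mul_sq_le_sq_mul_sq Fᶜ
      (fun z => Real.sqrt (κ z) * ‖Gr H κ z y - Gr H' κ' z y‖)
      (fun z => Real.sqrt (κ z) * ‖Gr H κ z y‖)
    have h5 : ∀ z, (Real.sqrt (κ z) * ‖Gr H κ z y - Gr H' κ' z y‖) *
        (Real.sqrt (κ z) * ‖Gr H κ z y‖)
        = κ z * (‖Gr H κ z y - Gr H' κ' z y‖ * ‖Gr H κ z y‖) := by
      intro z
      have := Real.mul_self_sqrt (hH.pos z).le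
      calc _ = (Real.sqrt (κ z) * Real.sqrt (κ z)) *
            (‖Gr H κ z y - Gr H' κ' z y‖ * ‖Gr H κ z y‖) := by ring
        _ = _ := by rw [this]
    have h6 : ∀ (z : X) (t : ℝ), (Real.sqrt (κ z) * t) ^ 2 = κ z * t ^ 2 := by
      intro z t
      rw [mul_pow, Real.sq_sqrt (hH.pos z).le]
    simp only [h5, h6] at h4
    have h7 : (∑ z ∈ Fᶜ, κ z * ‖Gr H κ z y - Gr H' κ' z y‖ ^ 2) *
        ∑ z ∈ Fᶜ, κ z * ‖Gr H κ z y‖ ^ 2 ≤ 4 * (L * (Gr H κ y y).im) := by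
      calc _ ≤ (4 * L) * (Gr H κ y y).im :=
            mul_le_mul h2 hS (Finset.sum_nonneg fun z _ => mul_nonneg (hH.pos z).le (sq_nonneg _))
              (by positivity)
        _ = _ := by ring
    have h8 : (∑ z ∈ Fᶜ, κ z * (‖Gr H κ z y - Gr H' κ' z y‖ * ‖Gr H κ z y‖)) ^ 2
        ≤ (2 * Real.sqrt (L * (Gr H κ y y).im)) ^ 2 := by
      rw [mul_pow, Real.sq_sqrt (mul_nonneg hL hI)]
      norm_num
      exact h4.trans h7
    exact abs_le_of_sq_le_sq' h8 (by positivity) |>.2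
  have hD : ‖∑ z ∈ Fᶜ, (κ z : ℂ) * Gr H κ z y ^ 2 - ∑ z ∈ Fᶜ, (κ z : ℂ) * Gr H' κ' z y ^ 2‖ ≤
      ∑ z ∈ Fᶜ, (2 * (κ z * (‖Gr H κ z y - Gr H' κ' z y‖ * ‖Gr H κ z y‖)) +
        κ z * ‖Gr H κ z y - Gr H' κ' z y‖ ^ 2) := by
    rw [← Finset.sum_sub_distrib]
    refine (norm_sum_le _ _).trans (Finset.sum_le_sum fun z _ => ?_)
    have e : (κ z : ℂ) * Gr H κ z y ^ 2 - (κ z : ℂ) * Gr H' κ' z y ^ 2 =
        (κ z : ℂ) * ((Gr H κ z y - Gr H' κ' z y) *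
          (2 * Gr H κ z y - (Gr H κ z y - Gr H' κ' z y))) := by ring
    rw [e, norm_mul, norm_mul, Complex.norm_real, Real.norm_of_nonneg (hH.pos z).le]
    have h9 : ‖2 * Gr H κ z y - (Gr H κ z y - Gr H' κ' z y)‖ ≤
        2 * ‖Gr H κ z y‖ + ‖Gr H κ z y - Gr H' κ' z y‖ := by
      refine (norm_sub_le _ _).trans ?_
      rw [norm_mul]
      norm_num
    calc κ z * (‖Gr H κ z y - Gr H' κ' z y‖ * ‖2 * Gr H κ z y - (Gr H κ z y - Gr H' κ' z y)‖)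
        ≤ κ z * (‖Gr H κ z y - Gr H' κ' z y‖ *
          (2 * ‖Gr H κ z y‖ + ‖Gr H κ z y - Gr H' κ' z y‖)) :=
          mul_le_mul_of_nonneg_left (mul_le_mul_of_nonneg_left h9 (norm_nonneg _)) (hH.pos z).le
      _ = _ := by ring
  rw [Finset.sum_add_distrib, ← Finset.mul_sum] at hD
  linarith

end Pool.Agent.ANR.H84
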